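import Pool.Agent.Run7.h982.BC.Iface

/-! Piece ARI of project BC: the partial products of the cosines at a nonzero frequency tend to
zero. -/

set_option autoImplicit false

open MeasureTheory Filter Topology Set

namespace Pool.Agent.Run7.h771.BC

open Pool.Agent.Run7.h982.BC
open Pool.Agent.Results.MP_ddcbd8_an.SingularDensities

lemma ph_eq (ξ : ℝ) : ph ξ = Complex.exp (((-(Real.pi * ξ) : ℝ) : ℂ) * Complex.I) *
    ((Real.cos (Real.pi * ξ) : ℝ) : ℂ) := by
  unfold ph E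
  rw [Complex.ofReal_cos, Complex.cos]
  have h1 : Complex.exp (((-(Real.pi * ξ) : ℝ) : ℂ) * Complex.I) *
      Complex.exp (((Real.pi * ξ : ℝ) : ℂ) * Complex.I) = 1 := by
    rw [← Complex.exp_add]
    have : ((-(Real.pi * ξ) : ℝ) : ℂ) * Complex.I + ((Real.pi * ξ : ℝ) : ℂ) * Complex.I = 0 := by
      push_cast; ring
    rw [this, Complex.exp_zero]
  have h2 : Complex.exp (((-(Real.pi * ξ) : ℝ) : ℂ) * Complex.I) *
      Complex.exp (-((Real.pi * ξ : ℝ) : ℂ) * Complex.I) =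
      Complex.exp (((2 * Real.pi * -ξ : ℝ) : ℂ) * Complex.I) := by
    rw [← Complex.exp_add]
    congr 1
    push_cast; ring
  rw [mul_div_assoc', mul_add, h1, h2]

lemma norm_ph (ξ : ℝ) : ‖ph ξ‖ = |Real.cos (Real.pi * ξ)| := by
  rw [ph_eq, norm_mul, Complex.norm_exp_ofReal_mul_I, one_mul, Complex.norm_real, Real.norm_eq_abs]

lemma norm_ph_le (ξ : ℝ) : ‖ph ξ‖ ≤ 1 := by
  rw [norm_ph]; exact Real.abs_cos_le_one _

lemma ph_eq_zero {ξ : ℝ} (h : ‖ph ξ‖ = 0) : ∃ n : ℤ, ξ = n + 1 / 2 := by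
  rw [norm_ph, abs_eq_zero, Real.cos_eq_zero_iff] at h
  obtain ⟨k, hk⟩ := h
  refine ⟨k, ?_⟩
  have hpi := Real.pi_ne_zero
  field_simp at hk
  linarith

lemma sq_le (ξ : ℝ) : (ξ - (round ξ : ℝ)) ^ 2 ≤ (1 - ‖ph ξ‖) / 2 := by
  rw [norm_ph]
  set δ : ℝ := ξ - (round ξ : ℝ) with hδ
  have hδ1 : |δ| ≤ 1 / 2 := abs_sub_round ξ
  have h1 : |Real.cos (Real.pi * ξ)| = |Real.cos (Real.pi * δ)| := by
    have : Real.pi * ξ = Real.pi * δ + (round ξ : ℤ) * Real.pi := by rw [hδ]; ring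
    rw [this, Real.cos_add_int_mul_pi, abs_mul]
    have : |((-1 : ℝ) ^ (round ξ : ℤ))| = 1 := by
      rw [abs_zpow, abs_neg, abs_one, one_zpow]
    rw [this, one_mul]
  rw [h1]
  have h2 : 2 * |δ| ≤ |Real.sin (Real.pi * δ)| := by
    have h3 : |Real.sin (Real.pi * δ)| = |Real.sin (Real.pi * |δ|)| := by
      rcases abs_choice δ with h | h
      · rw [h]
      · rw [h, mul_neg, Real.sin_neg, abs_neg]
    rw [h3]
    have h4 := Real.mul_le_sin (x := Real.pi * |δ|) (by positivity)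
      (by nlinarith [Real.pi_pos])
    have h5 : 2 / Real.pi * (Real.pi * |δ|) = 2 * |δ| := by
      field_simp
    rw [h5] at h4
    exact h4.trans (le_abs_self _)
  have h3 : (2 * |δ|) ^ 2 ≤ Real.sin (Real.pi * δ) ^ 2 := by
    rw [← sq_abs (Real.sin _)]
    exact pow_le_pow_left₀ (by positivity) h2 2
  rw [mul_pow, sq_abs] at h3
  have h4 := Real.sin_sq_add_cos_sq (Real.pi * δ)
  have h5 := sq_abs (Real.cos (Real.pi * δ))
  have h6 := Real.abs_cos_le_one (Real.pi * δ)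
  have h7 := abs_nonneg (Real.cos (Real.pi * δ))
  nlinarith

lemma irr_once {β ζ : ℝ} (hβ : 1 < β) (hζ : ζ ≠ 0) (hirr : ∀ I : ℕ, 1 ≤ I → Irrational (β ^ I))
    (i j : ℤ) (hij : i < j) (q r : ℚ) (h1 : β ^ i * ζ = q) (h2 : β ^ j * ζ = r) : False := by
  have hβ0 : β ≠ 0 := by positivity
  obtain ⟨m, hm⟩ := Int.eq_ofNat_of_zero_le (show (0 : ℤ) ≤ j - i by omega)
  have hm1 : 1 ≤ m := by omega
  have hq : (q : ℝ) ≠ 0 := by
    rw [← h1]
    exact mul_ne_zero (zpow_ne_zero _ hβ0) hζ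
  apply hirr m hm1
  refine ⟨r / q, ?_⟩
  push_cast
  rw [← h1, ← h2, div_eq_iff (by rw [h1]; exact hq), ← zpow_natCast, ← mul_assoc,
    ← zpow_add₀ hβ0]
  congr 2
  omega

lemma irr_once' {β ζ : ℝ} (hβ : 1 < β) (hζ : ζ ≠ 0) (hirr : ∀ I : ℕ, 1 ≤ I → Irrational (β ^ I))
    (i j : ℤ) (q r : ℚ) (h1 : β ^ i * ζ = q) (h2 : β ^ j * ζ = r) : i = j := by
  rcases lt_trichotomy i j with h | h | h
  · exact (irr_once hβ hζ hirr i j h q r h1 h2).elim
  · exact h
  · exact (irr_once hβ hζ hirr j i h r q h2 h1).elim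

lemma double (ξ : ℝ) : 1 - ‖ph (2 * ξ)‖ ≤ 4 * (1 - ‖ph ξ‖) := by
  rw [norm_ph, norm_ph]
  have h0 : Real.pi * (2 * ξ) = 2 * (Real.pi * ξ) := by ring
  rw [h0]
  have h1 := Real.cos_two_mul (Real.pi * ξ)
  have h2 := le_abs_self (Real.cos (2 * (Real.pi * ξ)))
  have h5 := sq_abs (Real.cos (Real.pi * ξ))
  have h6 := Real.abs_cos_le_one (Real.pi * ξ)
  have h7 := abs_nonneg (Real.cos (Real.pi * ξ))
  nlinarith

/-- The Riemann-Lebesgue lemma for the Fourier transform of the Bernoulli convolution. -/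
lemma tendsto_N {β : ℝ} (hβ : 1 < β) (hac : bernoulliConv β ≪ volume) :
    Tendsto (N β) (cocompact ℝ) (𝓝 0) := by
  have : Fact (1 < β) := ⟨hβ⟩
  have h := Real.tendsto_integral_exp_smul_cocompact
    (fun z : ℝ => ((((bernoulliConv β).rnDeriv volume z).toReal : ℝ) : ℂ))
  refine h.congr fun ξ => ?_
  unfold N
  rw [← integral_rnDeriv_smul hac]
  refine integral_congr_ae (Eventually.of_forall fun z => ?_)
  simp only [E, Circle.smul_def, Real.fourierChar_apply, smul_eq_mul, Complex.real_smul]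
  rw [mul_comm]
  congr 2
  push_cast
  ring

theorem t_ARI (hHAT : S_HAT) (hNUM : S_NUM) (hPRO : S_PRO) : S_ARI := by
  intro β hβ hβ2 hac ζ hζ
  have hβ0 : β ≠ 0 := by positivity
  by_contra hnot
  have hstep : ∀ (ξ : ℝ) (k : ℕ), ‖Ph β (k + 1) ξ‖ = ‖Ph β k ξ‖ * ‖ph (β ^ k * ξ)‖ := by
    intro ξ k
    unfold Ph
    rw [Finset.prod_range_succ, norm_mul]
  have hanti : Antitone fun k : ℕ => ‖Ph β k ζ‖ := by
    apply antitone_nat_of_succ_le
    intro k
    rw [hstep]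
    exact mul_le_of_le_one_right (norm_nonneg _) (norm_ph_le _)
  have hbdd : BddBelow (range fun k : ℕ => ‖Ph β k ζ‖) :=
    ⟨0, by rintro _ ⟨k, rfl⟩; exact norm_nonneg _⟩
  have hlim := tendsto_atTop_ciInf hanti hbdd
  set p : ℝ := ⨅ k : ℕ, ‖Ph β k ζ‖ with hpdef
  have hp0 : 0 ≤ p := le_ciInf fun k => norm_nonneg _
  have hp : 0 < p := by
    rcases hp0.lt_or_eq with h | h
    · exact h
    · exfalso
      apply hnot
      rw [tendsto_zero_iff_norm_tendsto_zero, h]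
      exact hlim
  have hpk : ∀ k : ℕ, p ≤ ‖Ph β k ζ‖ := fun k => ciInf_le hbdd k
  have ha0 : ∀ i : ℕ, 0 < ‖ph (β ^ i * ζ)‖ := by
    intro i
    refine lt_of_le_of_ne (norm_nonneg _) fun h => ?_
    have h1 := hpk (i + 1)
    rw [hstep, ← h, mul_zero] at h1
    linarith
  have ha1 : Tendsto (fun i : ℕ => 1 - ‖ph (β ^ i * ζ)‖) atTop (𝓝 0) := by
    have h1 : Tendsto (fun i : ℕ => (‖Ph β i ζ‖ - ‖Ph β (i + 1) ζ‖) / p) atTop (𝓝 0) := by
      have h2 := (hlim.sub (hlim.comp (tendsto_add_atTop_nat 1))).div_const p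
      simpa using h2
    refine squeeze_zero (fun i => ?_) (fun i => ?_) h1
    · have := norm_ph_le (β ^ i * ζ)
      linarith
    · rw [le_div_iff₀ hp, hstep]
      have h3 := norm_ph_le (β ^ i * ζ)
      have h4 := hpk i
      nlinarith
  have hround : Tendsto (fun i : ℕ => β ^ i * ζ - (round (β ^ i * ζ) : ℝ)) atTop (𝓝 0) := by
    have h1 : Tendsto (fun i : ℕ => (β ^ i * ζ - (round (β ^ i * ζ) : ℝ)) ^ 2) atTop (𝓝 0) := by
      refine squeeze_zero (fun i => sq_nonneg _) (fun i => sq_le _) ?_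
      have := ha1.div_const 2
      simpa using this
    have h2 := h1.sqrt
    rw [Real.sqrt_zero] at h2
    rw [tendsto_zero_iff_abs_tendsto_zero]
    refine h2.congr fun i => ?_
    rw [Real.sqrt_sq_eq_abs]
    rfl
  have hirr := hNUM β ζ hβ hβ2 hζ hround
  obtain ⟨ζ', hζ'0, hbad, hcmp⟩ : ∃ ζ' : ℝ, ζ' ≠ 0 ∧
      (∀ i n : ℤ, β ^ i * ζ' ≠ n + 1 / 2) ∧
      ∀ i : ℕ, 1 - ‖ph (β ^ i * ζ')‖ ≤ 4 * (1 - ‖ph (β ^ i * ζ)‖) := by
    by_cases h : ∃ i n : ℤ, β ^ i * ζ = n + 1 / 2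
    · obtain ⟨i, n, hin⟩ := h
      refine ⟨2 * ζ, by simpa using hζ, ?_, ?_⟩
      · intro j m hjm
        have h1 : β ^ j * ζ = (((m : ℚ) + 1 / 2) / 2 : ℚ) := by
          push_cast
          linarith
        have h2 : β ^ i * ζ = (((n : ℚ) + 1 / 2) : ℚ) := by
          push_cast
          exact hin
        have h3 := irr_once' hβ hζ hirr i j _ _ h2 h1
        subst h3
        have h4 : ((2 * (2 * n + 1) : ℤ) : ℝ) = ((2 * m + 1 : ℤ) : ℝ) := by
          push_cast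
          linarith
        have h5 : 2 * (2 * n + 1) = 2 * m + 1 := by exact_mod_cast h4
        omega
      · intro j
        have h1 : β ^ j * (2 * ζ) = 2 * (β ^ j * ζ) := by ring
        rw [h1]
        exact double _
    · push Not at h
      refine ⟨ζ, hζ, h, fun i => ?_⟩
      have := norm_ph_le (β ^ i * ζ)
      linarith
  have hb0 : ∀ i : ℕ, 0 < ‖ph (β ^ i * ζ')‖ := by
    intro i
    refine lt_of_le_of_ne (norm_nonneg _) fun h => ?_
    obtain ⟨n, hn⟩ := ph_eq_zero h.symm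
    exact hbad i n (by rw [zpow_natCast]; exact hn)
  have hnorm : ∀ (ξ : ℝ) (k : ℕ), ‖Ph β k ξ‖ = ∏ i ∈ Finset.range k, ‖ph (β ^ i * ξ)‖ := by
    intro ξ k
    unfold Ph
    exact norm_prod _ _
  obtain ⟨q, hq, hqk⟩ := hPRO (fun i => ‖ph (β ^ i * ζ)‖) (fun i => ‖ph (β ^ i * ζ')‖) p hp
    (fun i => ⟨ha0 i, norm_ph_le _⟩) (fun i => ⟨hb0 i, norm_ph_le _⟩) hcmp
    (fun k => by rw [← hnorm]; exact hpk k)
  obtain ⟨hC, hN0, hNrec⟩ := hHAT β hβ
  have hup : ∀ k : ℕ, N β (β ^ k * ζ') = Ph β k ζ' * N β ζ' := by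
    intro k
    induction k with
    | zero => simp [Ph]
    | succ k ih =>
      have h1 := hNrec (β ^ (k + 1) * ζ')
      have h2 : β ^ (k + 1) * ζ' / β = β ^ k * ζ' := by
        field_simp
        ring
      rw [h2, ih] at h1
      rw [h1]
      unfold Ph
      rw [Finset.prod_range_succ]
      ring
  have hdown : N β ζ' ≠ 0 := by
    intro h0
    have hz : ∀ k : ℕ, N β (ζ' / β ^ k) = 0 := by
      intro k
      induction k with
      | zero => simpa using h0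
      | succ k ih =>
        have h1 := hNrec (ζ' / β ^ k)
        rw [ih] at h1
        have h2 : ζ' / β ^ k / β = ζ' / β ^ (k + 1) := by
          rw [pow_succ, div_div]
        rw [h2] at h1
        rcases mul_eq_zero.mp h1.symm with h3 | h3
        · exfalso
          obtain ⟨n, hn⟩ := ph_eq_zero (ξ := ζ' / β ^ (k + 1)) (by rw [h3]; simp)
          apply hbad (-((k + 1 : ℕ) : ℤ)) n
          rw [zpow_neg, zpow_natCast, ← hn, inv_mul_eq_div]
        · exact h3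
    have h1 : Tendsto (fun k : ℕ => ζ' / β ^ k) atTop (𝓝 0) := by
      have h2 := tendsto_pow_atTop_nhds_zero_of_lt_one (r := β⁻¹) (by positivity)
        (inv_lt_one_of_one_lt₀ hβ)
      have h3 := h2.const_mul ζ'
      rw [mul_zero] at h3
      refine h3.congr fun k => ?_
      rw [inv_pow, div_eq_mul_inv]
    have h2 : Tendsto (fun k : ℕ => N β (ζ' / β ^ k)) atTop (𝓝 (N β 0)) :=
      (hC.continuous.tendsto 0).comp h1
    simp only [hz, hN0] at h2
    have h3 := tendsto_nhds_unique h2 tendsto_const_nhds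
    exact one_ne_zero h3
  have hRL : Tendsto (fun k : ℕ => N β (β ^ k * ζ')) atTop (𝓝 0) := by
    refine (tendsto_N hβ hac).comp ?_
    rw [← Metric.cobounded_eq_cocompact, ← tendsto_norm_atTop_iff_cobounded]
    have h1 : Tendsto (fun k : ℕ => β ^ k * |ζ'|) atTop atTop :=
      (tendsto_pow_atTop_atTop_of_one_lt hβ).atTop_mul_const (abs_pos.mpr hζ'0)
    refine h1.congr fun k => ?_
    rw [norm_mul, norm_pow, Real.norm_eq_abs, Real.norm_eq_abs, abs_of_pos (by linarith : 0 < β)]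
  have h1 := hRL.norm
  rw [norm_zero] at h1
  have h2 : q * ‖N β ζ'‖ ≤ 0 := by
    refine ge_of_tendsto' h1 fun k => ?_
    rw [hup, norm_mul, hnorm]
    exact mul_le_mul_of_nonneg_right (hqk k) (norm_nonneg _)
  have h3 : 0 < q * ‖N β ζ'‖ := mul_pos hq (norm_pos_iff.mpr hdown)
  linarith

end Pool.Agent.Run7.h771.BC
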